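import Pool.Agent.TH981.SD.Stm

set_option autoImplicit false

open Pool.Agent.TH981.SD
open Finset Set Filter
open scoped BigOperators Topology Classical

namespace Pool.Agent.TH945.J2225

/-! ### facts on `lam` -/

theorem lam_nonneg (α : ℝ) (d : ℕ) : 0 ≤ lam α d := Real.rpow_nonneg (Nat.cast_nonneg d) α

theorem lam_zero {α : ℝ} (h0 : 0 < α) : lam α 0 = 0 := by
  unfold lam; rw [Nat.cast_zero, Real.zero_rpow h0.ne']

theorem lam_one (α : ℝ) : lam α 1 = 1 := by
  unfold lam; rw [Nat.cast_one, Real.one_rpow]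

theorem lam_mono {α : ℝ} (h0 : 0 < α) {d e : ℕ} (h : d ≤ e) : lam α d ≤ lam α e :=
  Real.rpow_le_rpow (Nat.cast_nonneg d) (by exact_mod_cast h) h0.le

theorem lam_succ_le {α : ℝ} (h0 : 0 < α) (h1 : α < 1) {d : ℕ} (hd : 1 ≤ d) :
    lam α (d + 1) ≤ 2 * lam α d := by
  have hd' : (1 : ℝ) ≤ d := by exact_mod_cast hd
  have h2 : lam α (d + 1) ≤ (2 * (d : ℝ)) ^ α := by
    unfold lam
    refine Real.rpow_le_rpow (by positivity) ?_ h0.le
    push_cast; linarith
  refine h2.trans ?_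
  rw [Real.mul_rpow (by norm_num) (by positivity)]
  have h3 : (2 : ℝ) ^ α ≤ 2 ^ (1 : ℝ) := Real.rpow_le_rpow_of_exponent_le (by norm_num) h1.le
  rw [Real.rpow_one] at h3
  have := lam_nonneg α d
  unfold lam at this ⊢
  nlinarith

theorem dl_anti {α : ℝ} (h0 : 0 < α) (h1 : α < 1) (d : ℕ) :
    lam α (d + 2) - lam α (d + 1) ≤ lam α (d + 1) - lam α d := by
  have hc := Real.concaveOn_rpow h0.le h1.le
  have h2 := hc.2 (show (d : ℝ) ∈ Set.Ici (0 : ℝ) from Set.mem_Ici.2 (Nat.cast_nonneg d))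
    (show ((d + 2 : ℕ) : ℝ) ∈ Set.Ici (0 : ℝ) from Set.mem_Ici.2 (Nat.cast_nonneg (d + 2)))
    (show (0 : ℝ) ≤ 1 / 2 by norm_num) (show (0 : ℝ) ≤ 1 / 2 by norm_num)
    (show (1 / 2 : ℝ) + 1 / 2 = 1 by norm_num)
  simp only [smul_eq_mul] at h2
  have h3 : (1 / 2 : ℝ) * (d : ℝ) + 1 / 2 * ((d + 2 : ℕ) : ℝ) = ((d + 1 : ℕ) : ℝ) := by
    push_cast; ring
  rw [h3] at h2
  unfold lam
  linarith

theorem dl_le {α : ℝ} (h0 : 0 < α) (h1 : α < 1) {d : ℕ} (hd : 1 ≤ d) :
    lam α (d + 1) - lam α d ≤ (2 : ℝ) ^ α - 1 := by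
  induction d, hd using Nat.le_induction with
  | base =>
    rw [lam_one]
    unfold lam
    norm_num
  | succ d hd ih => exact (dl_anti h0 h1 d).trans ih

theorem two_rpow {α : ℝ} (h0 : 0 < α) (h1 : α < 1) : 1 < (2 : ℝ) ^ α ∧ (2 : ℝ) ^ α < 2 := by
  constructor
  · exact Real.one_lt_rpow (by norm_num) h0
  · have := Real.rpow_lt_rpow_of_exponent_lt (show (1 : ℝ) < 2 by norm_num) h1
    rwa [Real.rpow_one] at this

theorem bet_pos {α : ℝ} (h0 : 0 < α) (h1 : α < 1) : 0 < bet α := by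
  obtain ⟨ha, hb⟩ := two_rpow h0 h1
  unfold bet
  exact div_pos (by linarith) (by linarith)

theorem bet_eq {α : ℝ} (h0 : 0 < α) (h1 : α < 1) :
    bet α - ((2 : ℝ) ^ α - 1) - ((2 : ℝ) ^ α - 1) * bet α = 0 := by
  obtain ⟨ha, hb⟩ := two_rpow h0 h1
  have : (2 - (2 : ℝ) ^ α) ≠ 0 := by linarith
  unfold bet
  field_simp
  ring

/-! ### monotonicity from one-sided derivatives -/

theorem anti_of {f f' : ℝ → ℝ} (hf : ∀ t, 0 ≤ t → HasDerivWithinAt f (f' t) (Set.Ici 0) t)
    (h : ∀ t, 0 ≤ t → f' t ≤ 0) : AntitoneOn f (Set.Ici 0) := by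
  have hat : ∀ t, 0 < t → HasDerivAt f (f' t) t := fun t ht =>
    (hf t ht.le).hasDerivAt (Ici_mem_nhds ht)
  refine antitoneOn_of_deriv_nonpos (convex_Ici 0)
    (fun t ht => (hf t ht).continuousWithinAt) ?_ ?_
  · rw [interior_Ici]
    exact fun t ht => (hat t ht).differentiableAt.differentiableWithinAt
  · rw [interior_Ici]
    intro t ht
    rw [(hat t ht).deriv]
    exact h t (le_of_lt ht)

theorem mono_of {f f' : ℝ → ℝ} (hf : ∀ t, 0 ≤ t → HasDerivWithinAt f (f' t) (Set.Ici 0) t)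
    (h : ∀ t, 0 ≤ t → 0 ≤ f' t) : MonotoneOn f (Set.Ici 0) := by
  have h1 := anti_of (f := fun t => -f t) (f' := fun t => -f' t) (fun t ht => (hf t ht).fun_neg)
    (fun t ht => by have := h t ht; linarith)
  intro a ha b hb hab
  have := h1 ha hb hab
  simp only at this
  linarith

theorem deriv_right {f : ℝ → ℝ} {f' t : ℝ} (ht : 0 ≤ t) (hf : HasDerivWithinAt f f' (Set.Ici 0) t) :
    HasDerivWithinAt f f' (Set.Ici t) t := hf.mono (Set.Ici_subset_Ici.2 ht)

section
variable {α z : ℝ} {Y : ℕ → ℝ → ℝ}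

theorem W_nonneg (h : S_POS1) (h0 : 0 < α) (h1 : α < 1) (_hz0 : 0 < z) (hz1 : z < 1)
    (hY : IsY α z Y) : ∀ d t, 0 ≤ t → Y (d + 1) t ≤ Y d t := by
  intro d t ht
  have hc : ∀ d, ContinuousOn (Y d) (Set.Ici 0) := fun d t ht => (hY.deriv d t ht).continuousWithinAt
  have key := h α 0 t 1 1 1 h0 h1 ht zero_le_one zero_le_one le_rfl
    (fun d t => Y d t - Y (d + 1) t)
    (fun d t => lam α d * (Y 1 t * Y (d + 1) t - Y d t) -
      lam α (d + 1) * (Y 1 t * Y (d + 1 + 1) t - Y (d + 1) t))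
    (fun d t => lam α (d + 1) * Y 1 t) (fun d _ => lam α d)
    (fun d => ((hc d).sub (hc (d + 1))).mono Set.Icc_subset_Ici_self)
    (fun d s hs => deriv_right hs.1 ((hY.deriv d s hs.1).fun_sub (hY.deriv (d + 1) s hs.1)))
    ?_ ?_ ?_ ?_ d t (Set.right_mem_Icc.2 ht)
  · linarith
  · intro d s hs
    have hy1 : Y 1 s ≤ 1 := (hY.le 1 s hs.1).trans hz1.le
    have hd := lam_mono h0 (Nat.le_succ d)
    have hp := hY.pos (d + 1) s hs.1
    have e : (lam α (d + 1) - lam α d) * (Y (d + 1) s * (1 - Y 1 s)) ≥ 0 := by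
      have h3 : 0 ≤ lam α (d + 1) - lam α d := by
        have : lam α d ≤ lam α (d + 1) := hd
        linarith
      have h4 : 0 ≤ 1 - Y 1 s := by linarith
      positivity
    nlinarith
  · intro d s hs
    have hy := hY.pos 1 s hs.1
    have hy1 : Y 1 s ≤ 1 := (hY.le 1 s hs.1).trans hz1.le
    have hl := lam_nonneg α (d + 1)
    have hl' := lam_nonneg α d
    refine ⟨by positivity, by nlinarith, by linarith⟩
  · intro d
    rw [hY.init, hY.init, sub_self]
  · intro d s hs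
    have a1 := hY.pos d s hs.1
    have a2 := hY.pos (d + 1) s hs.1
    have a3 := hY.le d s hs.1
    have a4 := hY.le (d + 1) s hs.1
    rw [one_pow, mul_one, abs_le]
    constructor <;> linarith

theorem W_upper (h : S_POS1) (h0 : 0 < α) (h1 : α < 1) (hz0 : 0 < z) (hz1 : z < 1)
    (hY : IsY α z Y) : ∀ d t, 1 ≤ d → 0 ≤ t → Y d t - Y (d + 1) t ≤ bet α * (1 - Y 1 t) := by
  intro d' t hd' ht
  obtain ⟨d, rfl⟩ := Nat.exists_eq_add_of_le' hd'
  have hW := W_nonneg h h0 h1 hz0 hz1 hY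
  have hanti : ∀ d s, 1 ≤ d → 0 ≤ s → Y d s ≤ Y 1 s := by
    intro d s hd hs
    induction d, hd using Nat.le_induction with
    | base => exact le_rfl
    | succ d hd ih => exact (hW d s hs).trans ih
  have hc : ∀ d, ContinuousOn (Y d) (Set.Ici 0) := fun d t ht => (hY.deriv d t ht).continuousWithinAt
  have hb := bet_pos h0 h1
  have hbe := bet_eq h0 h1
  obtain ⟨h2a, h2b⟩ := two_rpow h0 h1
  have key := h α 0 t 2 (bet α + 1) 1 h0 h1 ht (by norm_num) (by linarith) le_rfl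
    (fun d t => bet α * (1 - Y 1 t) - (Y (d + 1) t - Y (d + 1 + 1) t))
    (fun d t => bet α * (0 - lam α 1 * (Y 1 t * Y (1 + 1) t - Y 1 t)) -
      (lam α (d + 1) * (Y 1 t * Y (d + 1 + 1) t - Y (d + 1) t) -
      lam α (d + 1 + 1) * (Y 1 t * Y (d + 1 + 1 + 1) t - Y (d + 1 + 1) t)))
    (fun d t => lam α (d + 1 + 1) * Y 1 t) (fun d _ => lam α (d + 1))
    (fun d => (((continuousOn_const.sub (hc 1)).const_mul _).sub
      ((hc (d + 1)).sub (hc (d + 1 + 1)))).mono Set.Icc_subset_Ici_self)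
    (fun d s hs => deriv_right hs.1 ((((hasDerivWithinAt_const s (Set.Ici 0) (1 : ℝ)).fun_sub
      (hY.deriv 1 s hs.1)).const_mul (bet α)).fun_sub
      ((hY.deriv (d + 1) s hs.1).fun_sub (hY.deriv (d + 1 + 1) s hs.1))))
    ?_ ?_ ?_ ?_ d t (Set.right_mem_Icc.2 ht)
  · linarith
  · intro d s hs
    have hy1 : Y 1 s ≤ 1 := (hY.le 1 s hs.1).trans hz1.le
    have hyp := hY.pos 1 s hs.1
    have hd := dl_le h0 h1 (d := d + 1) (by omega)
    have hdm := lam_mono h0 (Nat.le_succ (d + 1))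
    have hp := hY.pos (d + 1 + 1) s hs.1
    have hle : Y (d + 1 + 1) s ≤ Y 1 s := hanti _ s (by omega) hs.1
    have hle2 : Y (1 + 1) s ≤ Y 1 s := hanti _ s (by omega) hs.1
    have hl := lam_nonneg α (d + 1)
    rw [lam_one]
    set y := Y 1 s
    set l1 := lam α (d + 1)
    set l2 := lam α (d + 1 + 1)
    set q := Y (d + 1 + 1) s
    set δ := (2 : ℝ) ^ α - 1
    have hdm' : l1 ≤ l2 := hdm
    have e1 : 0 ≤ (1 - y) := by linarith
    have f1 : (l2 - l1) * q * (1 - y) ≤ δ * y * (1 - y) := by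
      have : (l2 - l1) * q ≤ δ * y := mul_le_mul hd hle hp.le (by linarith)
      nlinarith
    have f2 : (l2 * y - l1) * (bet α * (1 - y)) ≤ δ * y * (bet α * (1 - y)) := by
      have : l2 * y - l1 ≤ δ * y := by nlinarith
      have hb2 : 0 ≤ bet α * (1 - y) := by positivity
      nlinarith
    have f3 : bet α * (y * (1 - y)) ≤ bet α * (y * (1 - Y (1 + 1) s)) := by
      gcongr
    have f4 : (bet α - δ - δ * bet α) * (y * (1 - y)) = 0 := by
      rw [hbe, zero_mul]
    nlinarith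
  · intro d s hs
    have hy := hY.pos 1 s hs.1
    have hy1 : Y 1 s ≤ 1 := (hY.le 1 s hs.1).trans hz1.le
    have hl := lam_nonneg α (d + 1 + 1)
    have hl' := lam_nonneg α (d + 1)
    have hl2 := lam_succ_le h0 h1 (d := d + 1) (by omega)
    refine ⟨by positivity, by nlinarith, by linarith⟩
  · intro d
    rw [hY.init, hY.init, hY.init, sub_self, sub_zero]
    have : 0 < 1 - z := by linarith
    positivity
  · intro d s hs
    have a1 := hY.pos (d + 1) s hs.1
    have a2 := hY.pos (d + 1 + 1) s hs.1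
    have a3 := hY.le (d + 1) s hs.1
    have a4 := hY.le (d + 1 + 1) s hs.1
    have a5 := hY.pos 1 s hs.1
    have a6 := hY.le 1 s hs.1
    rw [one_pow, mul_one, abs_le]
    have b1 : bet α * (1 - Y 1 s) ≤ bet α * 1 := by
      gcongr; linarith
    have b2 : 0 ≤ bet α * (1 - Y 1 s) := by
      have : 0 ≤ 1 - Y 1 s := by linarith
      positivity
    constructor <;> linarith

end

theorem yf (h1 : S_POS1) : S_YF := by
  intro α z Y h0 h1' hz0 hz1 hY
  have hW := W_nonneg h1 h0 h1' hz0 hz1 hY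
  have hU := W_upper h1 h0 h1' hz0 hz1 hY
  have hle1 : ∀ d t, 0 ≤ t → Y d t ≤ 1 := fun d t ht => (hY.le d t ht).trans hz1.le
  have hm : ∀ t, 0 ≤ t → Y 1 t * (1 - Y 1 t) ≤ m1 Y t ∧ m1 Y t ≤ Y 1 t := by
    intro t ht
    have a1 := hY.pos 1 t ht
    have a2 := hW 1 t ht
    have a3 := hY.pos 2 t ht
    unfold m1
    constructor
    · gcongr
    · have : Y 1 t * (1 - Y 2 t) ≤ Y 1 t * 1 := by gcongr; linarith
      linarith
  have hd1 : ∀ t, 0 ≤ t → HasDerivWithinAt (Y 1) (-(m1 Y t)) (Set.Ici 0) t := by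
    intro t ht
    have := hY.deriv 1 t ht
    rw [lam_one] at this
    refine this.congr_deriv ?_
    unfold m1
    show 1 * (Y 1 t * Y 2 t - Y 1 t) = _
    ring
  have hanti : ∀ d, AntitoneOn (Y d) (Set.Ici 0) := by
    intro d
    refine anti_of (hY.deriv d) fun t ht => ?_
    have a1 := hW d t ht
    have a2 := hle1 1 t ht
    have a3 := hY.pos (d + 1) t ht
    have a4 := lam_nonneg α d
    have a5 : Y 1 t * Y (d + 1) t - Y d t ≤ 0 := by nlinarith
    exact mul_nonpos_of_nonneg_of_nonpos a4 a5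
  refine ⟨hW, hU, ?_, hm, hd1, hanti, ?_⟩
  · intro t ht
    have := hU 1 t le_rfl ht
    have e : Y (1 + 1) t = Y 2 t := rfl
    rw [e] at this
    linarith
  · intro d hd
    have hanti2 : ∀ t, 0 ≤ t → Y d t ≤ Y 1 t := by
      intro s hs
      induction d, hd using Nat.le_induction with
      | base => exact le_rfl
      | succ d hd ih => exact (hW d s hs).trans (ih)
    -- decay of `Y 1`
    have hdec : AntitoneOn (fun t => Real.exp ((1 - z) * t) * Y 1 t) (Set.Ici 0) := by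
      refine anti_of (f' := fun t => Real.exp ((1 - z) * t) * ((1 - z) * 1) * Y 1 t +
        Real.exp ((1 - z) * t) * (-(m1 Y t))) (fun t ht => ?_) fun t ht => ?_
      · have ha : HasDerivWithinAt (fun t : ℝ => Real.exp ((1 - z) * t))
            (Real.exp ((1 - z) * t) * ((1 - z) * 1)) (Set.Ici 0) t :=
          (((hasDerivAt_id t).const_mul (1 - z)).exp).hasDerivWithinAt
        exact ha.fun_mul (hd1 t ht)
      · have a1 := (hm t ht).1
        have a2 := hY.le 1 t ht
        have a3 := hY.pos 1 t ht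
        have a4 : (1 - z) * Y 1 t ≤ m1 Y t := by nlinarith
        have a5 := Real.exp_pos ((1 - z) * t)
        nlinarith
    have hb : ∀ t, 0 ≤ t → Y d t ≤ z * Real.exp (-((1 - z) * t)) := by
      intro t ht
      have a1 := hdec (show (0 : ℝ) ∈ Set.Ici 0 from Set.self_mem_Ici) (show t ∈ Set.Ici (0:ℝ) from ht) ht
      simp only [mul_zero, Real.exp_zero, one_mul] at a1
      rw [hY.init] at a1
      have a2 : Y 1 t = Real.exp (-((1 - z) * t)) * (Real.exp ((1 - z) * t) * Y 1 t) := by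
        rw [← mul_assoc, ← Real.exp_add]; simp
      refine (hanti2 t ht).trans ?_
      rw [a2, mul_comm z]
      gcongr
    have hlim : Tendsto (fun t => z * Real.exp (-((1 - z) * t))) atTop (𝓝 0) := by
      have a1 : Tendsto (fun t : ℝ => (1 - z) * t) atTop atTop :=
        tendsto_id.const_mul_atTop (by linarith)
      have a2 := (Real.tendsto_exp_neg_atTop_nhds_zero.comp a1).const_mul z
      rw [mul_zero] at a2
      exact a2
    refine tendsto_of_tendsto_of_tendsto_of_le_of_le' tendsto_const_nhds hlim ?_ ?_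
    · filter_upwards [eventually_ge_atTop 0] with t ht using (hY.pos d t ht).le
    · filter_upwards [eventually_ge_atTop 0] with t ht using hb t ht

theorem tm (h1 : S_YF) : S_TM := by
  intro α z Y h0 h1' hz0 hz1 hY
  obtain ⟨hW, hU, h3, h4, h5, h6, h7⟩ := h1 α z Y h0 h1' (by linarith) hz1 hY
  have hc : ContinuousOn (Y 1) (Set.Ici 0) := fun t ht => (h5 t ht).continuousWithinAt
  have hpos := fun t ht => hY.pos 1 t ht
  have hb := bet_pos h0 h1'
  -- derivative of `1 / y`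
  have hinv : ∀ t, 0 ≤ t → HasDerivWithinAt (fun t => (Y 1 t)⁻¹) ((1 - Y 2 t) * (Y 1 t)⁻¹)
      (Set.Ici 0) t := by
    intro t ht
    have := (h5 t ht).fun_inv (hpos t ht).ne'
    refine this.congr_deriv ?_
    have := (hpos t ht).ne'
    unfold m1
    field_simp
  have hexp : ∀ (k t : ℝ), HasDerivWithinAt (fun t : ℝ => Real.exp (-(k * t)))
      (Real.exp (-(k * t)) * (-(k * 1))) (Set.Ici 0) t := fun k t =>
    ((((hasDerivAt_id t).const_mul k).fun_neg).exp).hasDerivWithinAt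
  -- (a)
  have hA : MonotoneOn (fun t => Real.exp (-(1 * t)) * ((Y 1 t)⁻¹ - 1)) (Set.Ici 0) := by
    refine mono_of (f' := fun t => Real.exp (-(1 * t)) * (-(1 * 1)) * ((Y 1 t)⁻¹ - 1) +
      Real.exp (-(1 * t)) * ((1 - Y 2 t) * (Y 1 t)⁻¹)) (fun t ht => ?_) fun t ht => ?_
    · exact (hexp 1 t).fun_mul ((hinv t ht).sub_const 1)
    · have a1 := hpos t ht
      have a2 := hW 1 t ht
      have a3 : Y 1 t * (Y 1 t)⁻¹ = 1 := mul_inv_cancel₀ a1.ne'
      have a4 : 0 < (Y 1 t)⁻¹ := inv_pos.2 a1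
      have a5 := Real.exp_pos (-(1 * t))
      have e : Y (1 + 1) t = Y 2 t := rfl
      rw [e] at a2
      have a6 : (Y 1 t)⁻¹ - 1 ≤ (1 - Y 2 t) * (Y 1 t)⁻¹ := by nlinarith
      nlinarith
  -- (b)
  have hB : AntitoneOn (fun t => Real.exp (-((1 + bet α) * t)) * ((Y 1 t)⁻¹ - 1)) (Set.Ici 0) := by
    refine anti_of (f' := fun t => Real.exp (-((1 + bet α) * t)) * (-((1 + bet α) * 1)) *
      ((Y 1 t)⁻¹ - 1) +
      Real.exp (-((1 + bet α) * t)) * ((1 - Y 2 t) * (Y 1 t)⁻¹)) (fun t ht => ?_) fun t ht => ?_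
    · exact (hexp _ t).fun_mul ((hinv t ht).sub_const 1)
    · have a1 := hpos t ht
      have a2 := h3 t ht
      have a3 : Y 1 t * (Y 1 t)⁻¹ = 1 := mul_inv_cancel₀ a1.ne'
      have a4 : 0 < (Y 1 t)⁻¹ := inv_pos.2 a1
      have a5 := Real.exp_pos (-((1 + bet α) * t))
      have a6 : (1 - Y 2 t) * (Y 1 t)⁻¹ ≤ (1 + bet α) * ((Y 1 t)⁻¹ - 1) := by
        have : (1 - Y 2 t) * (Y 1 t)⁻¹ ≤ (1 + bet α) * (1 - Y 1 t) * (Y 1 t)⁻¹ := by gcongr
        have e2 : (1 + bet α) * (1 - Y 1 t) * (Y 1 t)⁻¹ = (1 + bet α) * ((Y 1 t)⁻¹ - 1) := by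
          rw [mul_assoc, sub_mul, a3, one_mul]
        linarith
      nlinarith
  -- (c)
  have hC : AntitoneOn (fun t => Real.exp (-(1 * t)) * (Y 1 t)⁻¹) (Set.Ici 0) := by
    refine anti_of (f' := fun t => Real.exp (-(1 * t)) * (-(1 * 1)) * (Y 1 t)⁻¹ +
      Real.exp (-(1 * t)) * ((1 - Y 2 t) * (Y 1 t)⁻¹)) (fun t ht => ?_) fun t ht => ?_
    · exact (hexp 1 t).fun_mul (hinv t ht)
    · have a1 := hpos t ht
      have a2 := hY.pos 2 t ht
      have a4 : 0 < (Y 1 t)⁻¹ := inv_pos.2 a1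
      have a5 := Real.exp_pos (-(1 * t))
      have a6 : (1 - Y 2 t) * (Y 1 t)⁻¹ ≤ (Y 1 t)⁻¹ := by nlinarith
      nlinarith
  constructor
  · -- existence
    have hlim := h7 1 le_rfl
    obtain ⟨T, hT0, hT⟩ : ∃ T, 0 ≤ T ∧ Y 1 T < 1 / 2 := by
      obtain ⟨T, hT⟩ := eventually_atTop.1
        (hlim.eventually (gt_mem_nhds (show (0 : ℝ) < 1 / 2 by norm_num)))
      exact ⟨max T 0, le_max_right _ _, hT _ (le_max_left _ _)⟩
    have hiv := intermediate_value_Icc' hT0 (hc.mono Set.Icc_subset_Ici_self)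
    obtain ⟨tM, htM, htM'⟩ := hiv (show (1 / 2 : ℝ) ∈ Set.Icc (Y 1 T) (Y 1 0) from
      ⟨hT.le, by rw [hY.init]; exact hz0.le⟩)
    refine ⟨tM, lt_of_le_of_ne htM.1 ?_, htM'⟩
    intro h
    rw [← h, hY.init] at htM'
    linarith
  · intro tM htM htM'
    have hinvM : (Y 1 tM)⁻¹ = 2 := by rw [htM']; norm_num
    have m0 : (0 : ℝ) ∈ Set.Ici (0 : ℝ) := Set.self_mem_Ici
    have mM : tM ∈ Set.Ici (0 : ℝ) := htM
    refine ⟨?_, ?_, ?_⟩
    · have a1 := hB m0 mM htM
      simp only [mul_zero, neg_zero, Real.exp_zero, one_mul] at a1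
      rw [hinvM, hY.init] at a1
      have hz0' : 0 < z := by linarith
      have hz1' : 0 < 1 - z := by linarith
      have a2 : Real.exp (-((1 + bet α) * tM)) ≤ (1 - z) / z := by
        have : z⁻¹ - 1 = (1 - z) / z := by field_simp
        rw [← this]; linarith
      have a3 := Real.log_le_log (Real.exp_pos _) a2
      rw [Real.log_exp] at a3
      have a4 : Real.log (z / (1 - z)) = -Real.log ((1 - z) / z) := by
        rw [← Real.log_inv, inv_div]
      rw [a4]; linarith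
    · intro t ht
      have mt : t ∈ Set.Ici (0 : ℝ) := htM.trans ht
      have hp := hpos t mt
      constructor
      · have a1 := hC mM mt ht
        simp only [one_mul] at a1
        rw [hinvM] at a1
        -- 1/y ≤ 2 e^{t - tM}
        have a2 : (Y 1 t)⁻¹ ≤ 2 * Real.exp (t - tM) := by
          have : (Y 1 t)⁻¹ = Real.exp t * (Real.exp (-t) * (Y 1 t)⁻¹) := by
            rw [← mul_assoc, ← Real.exp_add]; simp
          rw [this]
          calc Real.exp t * (Real.exp (-t) * (Y 1 t)⁻¹) ≤ Real.exp t * (Real.exp (-tM) * 2) := by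
                gcongr
            _ = 2 * Real.exp (t - tM) := by rw [sub_eq_add_neg, Real.exp_add]; ring
        rw [Real.exp_neg, div_eq_mul_inv, ← mul_inv, ← inv_inv (Y 1 t)]
        rw [mul_comm]
        exact inv_anti₀ (inv_pos.2 hp) a2
      · have a1 := hA mM mt ht
        simp only [one_mul] at a1
        rw [hinvM] at a1
        have a2 : Real.exp (t - tM) ≤ (Y 1 t)⁻¹ := by
          have a3 : Real.exp (t - tM) ≤ (Y 1 t)⁻¹ - 1 := by
            have : (Y 1 t)⁻¹ - 1 = Real.exp t * (Real.exp (-t) * ((Y 1 t)⁻¹ - 1)) := by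
              rw [← mul_assoc, ← Real.exp_add]; simp
            rw [this]
            calc Real.exp (t - tM) = Real.exp t * (Real.exp (-tM) * (2 - 1)) := by
                  rw [sub_eq_add_neg, Real.exp_add]; ring
              _ ≤ _ := by gcongr
          linarith
        rw [Real.exp_neg, ← inv_inv (Y 1 t)]
        exact inv_anti₀ (Real.exp_pos _) a2
    · intro t ht htle
      have mt : t ∈ Set.Ici (0 : ℝ) := ht
      have hp := hpos t ht
      have hhalf : 1 / 2 ≤ Y 1 t := by rw [← htM']; exact h6 1 mt mM htle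
      have hly : 1 - Y 1 t = ((Y 1 t)⁻¹ - 1) * Y 1 t := by
        rw [sub_mul, inv_mul_cancel₀ hp.ne', one_mul]
      have hle1 : Y 1 t ≤ 1 := (hY.le 1 t ht).trans hz1.le
      have hl0 : 0 ≤ (Y 1 t)⁻¹ - 1 := by
        have := (one_le_inv₀ hp).2 hle1
        linarith
      refine ⟨?_, ?_, ?_, hhalf⟩
      · have a1 := hB mt mM htle
        simp only at a1
        rw [hinvM] at a1
        have a3 : Real.exp ((1 + bet α) * (t - tM)) ≤ (Y 1 t)⁻¹ - 1 := by
          have : (Y 1 t)⁻¹ - 1 = Real.exp ((1 + bet α) * t) *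
              (Real.exp (-((1 + bet α) * t)) * ((Y 1 t)⁻¹ - 1)) := by
            rw [← mul_assoc, ← Real.exp_add]; simp
          rw [this]
          calc Real.exp ((1 + bet α) * (t - tM)) = Real.exp ((1 + bet α) * t) *
                (Real.exp (-((1 + bet α) * tM)) * (2 - 1)) := by
                rw [mul_sub, sub_eq_add_neg, Real.exp_add]; ring
            _ ≤ _ := by gcongr
        rw [hly]
        nlinarith
      · have a1 := hA mt mM htle
        simp only [one_mul] at a1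
        rw [hinvM] at a1
        have a3 : (Y 1 t)⁻¹ - 1 ≤ Real.exp (t - tM) := by
          have : (Y 1 t)⁻¹ - 1 = Real.exp t * (Real.exp (-t) * ((Y 1 t)⁻¹ - 1)) := by
            rw [← mul_assoc, ← Real.exp_add]; simp
          rw [this]
          calc Real.exp t * (Real.exp (-t) * ((Y 1 t)⁻¹ - 1)) ≤
                Real.exp t * (Real.exp (-tM) * (2 - 1)) := by gcongr
            _ = _ := by rw [sub_eq_add_neg t tM, Real.exp_add]; ring
        rw [hly]
        nlinarith
      · have a1 := hC mt mM htle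
        simp only [one_mul] at a1
        rw [hinvM] at a1
        have a2 : 2 * Real.exp (t - tM) ≤ (Y 1 t)⁻¹ := by
          have : (Y 1 t)⁻¹ = Real.exp t * (Real.exp (-t) * (Y 1 t)⁻¹) := by
            rw [← mul_assoc, ← Real.exp_add]; simp
          rw [this]
          calc 2 * Real.exp (t - tM) = Real.exp t * (Real.exp (-tM) * 2) := by
                rw [sub_eq_add_neg, Real.exp_add]; ring
            _ ≤ _ := by gcongr
        have a4 : Real.exp (tM - t) / 2 = (2 * Real.exp (t - tM))⁻¹ := by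
          rw [mul_inv, ← Real.exp_neg, neg_sub]; ring
        rw [a4, ← inv_inv (Y 1 t)]
        exact inv_anti₀ (by positivity) a2

end Pool.Agent.TH945.J2225
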