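import Pool.Agent.TH981.SD.Stm

set_option autoImplicit false

open Pool.Agent.TH981.SD
open Finset Set Filter
open scoped BigOperators Topology Classical

namespace Pool.Agent.TH945.J2231

theorem lam_nonneg (α : ℝ) (d : ℕ) : 0 ≤ lam α d := Real.rpow_nonneg (Nat.cast_nonneg d) α

theorem lam_mono {α : ℝ} (h0 : 0 < α) {d e : ℕ} (h : d ≤ e) : lam α d ≤ lam α e :=
  Real.rpow_le_rpow (Nat.cast_nonneg d) (by exact_mod_cast h) h0.le

theorem deriv_right {f : ℝ → ℝ} {f' t : ℝ} (ht : 0 ≤ t) (hf : HasDerivWithinAt f f' (Set.Ici 0) t) :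
    HasDerivWithinAt f f' (Set.Ici t) t := hf.mono (Set.Ici_subset_Ici.2 ht)

theorem mono (h1 : S_POS1) (h2 : S_YF) : S_MONO := by
  intro α z K Y V h0 h1' hz0 hz1 hK hY hV T hT hKT
  obtain ⟨yW, yU, y3, y4, y5, y6, y7⟩ := h2 α z Y h0 h1' hz0 hz1 hY
  -- bounds for `c`
  have hc1 : ∀ t, 0 ≤ t → t ≤ T → 1 ≤ cc Y K t := by
    intro t ht htT
    have a1 := hY.pos 1 t ht
    have a2 : Y 1 t ≤ 1 := (hY.le 1 t ht).trans hz1.le
    have a3 := (y4 t ht).1
    have a4 : Y 1 T ≤ Y 1 t := y6 1 (show t ∈ Set.Ici (0:ℝ) from ht) (show T ∈ Set.Ici (0:ℝ) from hT) htT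
    have a5 : 1 ≤ K * Y 1 t := hKT.trans (by gcongr)
    unfold cc
    have a6 : K * (Y 1 t * (1 - Y 1 t)) ≤ K * m1 Y t := by gcongr
    nlinarith
  have hc2 : ∀ t, 0 ≤ t → cc Y K t ≤ 1 + K := by
    intro t ht
    have a2 : Y 1 t ≤ 1 := (hY.le 1 t ht).trans hz1.le
    have a3 := (y4 t ht).2
    have a6 : K * m1 Y t ≤ K * 1 := by gcongr; linarith
    unfold cc
    linarith
  have hcV : ∀ d, ContinuousOn (V d) (Set.Ici 0) := fun d t ht => (hV.deriv d t ht).continuousWithinAt
  obtain ⟨B, C, hB, hC, hBC⟩ := hV.bdd T hT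
  have hW : ∀ d, ∀ t ∈ Set.Icc 0 T, 0 ≤ V (d + 1) t - V d t := by
    refine h1 α 0 T (1 + K) (B * (C + 1)) C h0 h1' hT (by linarith) (by positivity) hC
      (fun d t => V (d + 1) t - V d t)
      (fun d t => lam α (d + 1) * (cc Y K t * V (d + 1 + 1) t - V (d + 1) t) -
        lam α d * (cc Y K t * V (d + 1) t - V d t))
      (fun d t => lam α (d + 1) * cc Y K t) (fun d _ => lam α d)
      (fun d => ((hcV (d + 1)).sub (hcV d)).mono Set.Icc_subset_Ici_self)
      (fun d s hs => deriv_right hs.1 ((hV.deriv (d + 1) s hs.1).fun_sub (hV.deriv d s hs.1)))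
      ?_ ?_ ?_ ?_
    · intro d s hs
      have hc := hc1 s hs.1 hs.2.le
      have hv := hV.pos (d + 1) s hs.1
      have hd : lam α d ≤ lam α (d + 1) := lam_mono h0 (Nat.le_succ d)
      have e : 0 ≤ (lam α (d + 1) - lam α d) * ((cc Y K s - 1) * V (d + 1) s) := by
        have h3 : 0 ≤ lam α (d + 1) - lam α d := by linarith
        have h4 : 0 ≤ cc Y K s - 1 := by linarith
        positivity
      nlinarith
    · intro d s hs
      have hc := hc1 s hs.1 hs.2.le
      have hl := lam_nonneg α (d + 1)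
      have hl' := lam_nonneg α d
      refine ⟨by positivity, ?_, by linarith⟩
      rw [mul_comm]
      exact mul_le_mul_of_nonneg_right (hc2 s hs.1) hl
    · intro d
      rw [hV.init, hV.init, sub_self]
    · intro d s hs
      have a1 := hV.pos d s hs.1
      have a2 := hV.pos (d + 1) s hs.1
      have a3 := hBC d s hs.1 hs.2
      have a4 := hBC (d + 1) s hs.1 hs.2
      have a5 : B * (C + 1) * C ^ d = B * C ^ (d + 1) + B * C ^ d := by ring
      rw [a5, abs_le]
      constructor <;> linarith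
  have hV1 : ∀ d, ∀ t ∈ Set.Icc 0 T, 0 ≤ V d t - 1 := by
    refine h1 α 0 T (1 + K) (B + 1) C h0 h1' hT (by linarith) (by positivity) hC
      (fun d t => V d t - 1)
      (fun d t => lam α d * (cc Y K t * V (d + 1) t - V d t))
      (fun d t => lam α d * cc Y K t) (fun d _ => lam α d)
      (fun d => ((hcV d).sub continuousOn_const).mono Set.Icc_subset_Ici_self)
      (fun d s hs => deriv_right hs.1 ((hV.deriv d s hs.1).sub_const 1))
      ?_ ?_ ?_ ?_
    · intro d s hs
      have hc := hc1 s hs.1 hs.2.le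
      have hl' := lam_nonneg α d
      have e : 0 ≤ lam α d * (cc Y K s - 1) := by
        have h4 : 0 ≤ cc Y K s - 1 := by linarith
        positivity
      nlinarith
    · intro d s hs
      have hc := hc1 s hs.1 hs.2.le
      have hl := lam_nonneg α (d + 1)
      have hl' := lam_nonneg α d
      refine ⟨by positivity, ?_, by linarith⟩
      rw [mul_comm]
      exact mul_le_mul (hc2 s hs.1) (lam_mono h0 (Nat.le_succ d)) hl' (by linarith)
    · intro d
      rw [hV.init, sub_self]
    · intro d s hs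
      have a1 := hV.pos d s hs.1
      have a3 := hBC d s hs.1 hs.2
      have a5 : (B + 1) * C ^ d = B * C ^ d + C ^ d := by ring
      have a6 : 1 ≤ C ^ d := one_le_pow₀ hC
      rw [a5, abs_le]
      constructor <;> linarith
  intro t ht htT
  refine ⟨hc1 t ht htT, fun d _ => ⟨?_, ?_⟩⟩
  · have := hW d t ⟨ht, htT⟩
    linarith
  · have := hV1 d t ⟨ht, htT⟩
    linarith

end Pool.Agent.TH945.J2231
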