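import Pool.Agent.TH981.SD.Stm

set_option autoImplicit false

open Pool.Agent.TH981.SD
open Finset Set Filter
open scoped BigOperators Topology Classical

namespace Pool.Agent.TH945.J2245

theorem lam_nonneg (α : ℝ) (d : ℕ) : 0 ≤ lam α d := Real.rpow_nonneg (Nat.cast_nonneg d) α

theorem lam_mono {α : ℝ} (h0 : 0 < α) {d e : ℕ} (h : d ≤ e) : lam α d ≤ lam α e :=
  Real.rpow_le_rpow (Nat.cast_nonneg d) (by exact_mod_cast h) h0.le

theorem deriv_right {f : ℝ → ℝ} {f' t : ℝ} (ht : 0 ≤ t) (hf : HasDerivWithinAt f f' (Set.Ici 0) t) :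
    HasDerivWithinAt f f' (Set.Ici t) t := hf.mono (Set.Ici_subset_Ici.2 ht)

theorem lam_le {α : ℝ} (h0 : 0 < α) (h1 : α < 1) {D : ℝ} (hD : 0 < D) (d : ℕ) :
    lam α d ≤ D ^ α * (1 + (d : ℝ) / D) := by
  unfold lam
  have e : (d : ℝ) ^ α = D ^ α * ((d : ℝ) / D) ^ α := by
    rw [← Real.mul_rpow hD.le (by positivity), mul_div_cancel₀ _ hD.ne']
  rw [e]
  have hx : 0 ≤ (d : ℝ) / D := by positivity
  have h2 : ((d : ℝ) / D) ^ α ≤ 1 + (d : ℝ) / D := by
    calc ((d : ℝ) / D) ^ α ≤ (1 + (d : ℝ) / D) ^ α :=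
          Real.rpow_le_rpow hx (by linarith) h0.le
      _ ≤ (1 + (d : ℝ) / D) ^ (1 : ℝ) :=
          Real.rpow_le_rpow_of_exponent_le (by linarith) h1.le
      _ = 1 + (d : ℝ) / D := Real.rpow_one _
  have h3 : 0 ≤ D ^ α := Real.rpow_nonneg hD.le α
  exact mul_le_mul_of_nonneg_left h2 h3

theorem DK_eq {α K : ℝ} (h1 : α < 1) (hK : 0 < K) : K * DK α K ^ α = DK α K := by
  unfold DK
  rw [← Real.rpow_mul hK.le]
  nth_rewrite 1 [← Real.rpow_one K]
  rw [← Real.rpow_add hK]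
  congr 1
  have : (1 - α) ≠ 0 := by linarith
  field_simp
  ring

theorem DK_ge {α K : ℝ} (h1 : α < 1) (hK : 1 ≤ K) : 1 ≤ DK α K := by
  unfold DK
  exact Real.one_le_rpow hK (by have : 0 < 1 - α := by linarith
                                positivity)

theorem pow_sub_le {a b : ℝ} (hb : 0 ≤ b) (hab : b ≤ a) (p : ℕ) :
    a ^ (p + 1) ≤ b ^ (p + 1) + ((p : ℝ) + 1) * a ^ p * (a - b) := by
  induction p with
  | zero => simp
  | succ p ih =>
    have ha : 0 ≤ a := hb.trans hab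
    have h1 : a ^ (p + 1 + 1) = a * a ^ (p + 1) := by ring
    have h2 : b ^ (p + 1) ≤ a ^ (p + 1) := pow_le_pow_left₀ hb hab _
    have h3 : a * a ^ (p + 1) ≤ a * (b ^ (p + 1) + ((p : ℝ) + 1) * a ^ p * (a - b)) :=
      mul_le_mul_of_nonneg_left ih ha
    have h4 : a * (b ^ (p + 1) + ((p : ℝ) + 1) * a ^ p * (a - b)) =
      b ^ (p + 1 + 1) + (a - b) * b ^ (p + 1) + ((p : ℝ) + 1) * a ^ (p + 1) * (a - b) := by ring
    have h5 : (a - b) * b ^ (p + 1) ≤ (a - b) * a ^ (p + 1) :=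
      mul_le_mul_of_nonneg_left h2 (by linarith)
    push_cast
    nlinarith

theorem num_ineq {K C' : ℝ} (hK : 32 ≤ K) (hC : 8 ≤ C') (p : ℕ) (hp : p ≤ 3) :
    (2 : ℝ) ^ (p + 1) * (((p : ℝ) + 1) * C' + K) ≤ ((p : ℝ) + 1) * C' * K := by
  have h : 0 ≤ (C' - 8) * (K - 32) := mul_nonneg (by linarith) (by linarith)
  interval_cases p <;> norm_num <;> nlinarith

theorem key {K k C' D Dα A y m η l V V1 : ℝ} (p : ℕ) (hp : p ≤ 3) (hK : 32 ≤ K) (hC : 8 ≤ C')
    (hk : 0 ≤ k) (hkK : k ≤ K) (hD : 1 ≤ D) (hDα : 0 ≤ Dα) (hKD : K * Dα = D)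
    (hA : A = C' * D * (1 - y)) (hy0 : 0 ≤ y) (hy1 : y ≤ 1) (hm : y * (1 - y) ≤ m)
    (hη : 1 ≤ η) (hl0 : 0 ≤ l) (hl : l ≤ Dα * η) (hV : 0 ≤ V) (hV1 : 0 ≤ V1) (hVV : V1 ≤ 2 * V) :
    l * (y * ((A * (η + 1 / D)) ^ (p + 1) * V1) + k * m * ((A * (η + 1 / D)) ^ p * V1)
      - (A * η) ^ (p + 1) * V) ≤
    ((p : ℝ) + 1) * (A * η) ^ p * (C' * D * m * η) * V +
      (A * η) ^ (p + 1) * (l * ((y + k * m) * V1 - V)) := by
  have hD0 : 0 < D := by linarith
  have hm0 : 0 ≤ m := le_trans (mul_nonneg hy0 (by linarith)) hm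
  have hA0 : 0 ≤ A := by
    rw [hA]
    have : 0 ≤ 1 - y := by linarith
    positivity
  set a := A * (η + 1 / D) with ha
  set b := A * η with hb
  have hb0 : 0 ≤ b := by positivity
  have hab' : a - b = C' * (1 - y) := by
    rw [ha, hb, hA]; field_simp; ring
  have hab : b ≤ a := by
    have : 0 ≤ C' * (1 - y) := mul_nonneg (by linarith) (by linarith)
    linarith
  have ha0 : 0 ≤ a := hb0.trans hab
  have ha2 : a ≤ 2 * b := by
    have h1 : 1 / D ≤ η := by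
      have : 1 / D ≤ 1 := by rw [div_le_one hD0]; exact hD
      linarith
    have h2 : A * (1 / D) ≤ A * η := mul_le_mul_of_nonneg_left h1 hA0
    rw [ha, hb]; linarith
  have hap : a ^ p ≤ 2 ^ p * b ^ p := by
    rw [← mul_pow]; exact pow_le_pow_left₀ ha0 ha2 _
  have h1 := pow_sub_le hb0 hab p
  rw [hab'] at h1
  have hap0 : 0 ≤ a ^ p := pow_nonneg ha0 p
  have hbp0 : 0 ≤ b ^ p := pow_nonneg hb0 p
  -- bracket
  have h2 : y * (a ^ (p + 1) - b ^ (p + 1)) + k * m * a ^ p ≤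
      2 ^ p * b ^ p * (m * (((p : ℝ) + 1) * C' + K)) := by
    have e1 : y * (a ^ (p + 1) - b ^ (p + 1)) ≤ y * (((p : ℝ) + 1) * a ^ p * (C' * (1 - y))) :=
      mul_le_mul_of_nonneg_left (by linarith) hy0
    have e2 : y * (((p : ℝ) + 1) * a ^ p * (C' * (1 - y))) =
        (((p : ℝ) + 1) * a ^ p * C') * (y * (1 - y)) := by ring
    have e3 : (((p : ℝ) + 1) * a ^ p * C') * (y * (1 - y)) ≤ (((p : ℝ) + 1) * a ^ p * C') * m :=
      mul_le_mul_of_nonneg_left hm (by positivity)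
    have e4 : k * m * a ^ p ≤ K * m * a ^ p := by gcongr
    have e5 : (((p : ℝ) + 1) * a ^ p * C') * m + K * m * a ^ p =
        a ^ p * (m * (((p : ℝ) + 1) * C' + K)) := by ring
    have e6 : a ^ p * (m * (((p : ℝ) + 1) * C' + K)) ≤
        2 ^ p * b ^ p * (m * (((p : ℝ) + 1) * C' + K)) :=
      mul_le_mul_of_nonneg_right hap (by positivity)
    linarith
  have h3 : l * V1 ≤ Dα * η * (2 * V) := by
    calc l * V1 ≤ (Dα * η) * V1 := mul_le_mul_of_nonneg_right hl hV1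
      _ ≤ Dα * η * (2 * V) := mul_le_mul_of_nonneg_left hVV (by positivity)
  have h4 : (l * V1) * (y * (a ^ (p + 1) - b ^ (p + 1)) + k * m * a ^ p) ≤
      (Dα * η * (2 * V)) * (2 ^ p * b ^ p * (m * (((p : ℝ) + 1) * C' + K))) := by
    calc (l * V1) * (y * (a ^ (p + 1) - b ^ (p + 1)) + k * m * a ^ p) ≤
          (l * V1) * (2 ^ p * b ^ p * (m * (((p : ℝ) + 1) * C' + K))) :=
          mul_le_mul_of_nonneg_left h2 (by positivity)
      _ ≤ _ := mul_le_mul_of_nonneg_right h3 (by positivity)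
  have h5 := num_ineq hK hC p hp
  have h6 : (Dα * η * (2 * V)) * (2 ^ p * b ^ p * (m * (((p : ℝ) + 1) * C' + K))) =
      (Dα * η * V * b ^ p * m) * ((2 : ℝ) ^ (p + 1) * (((p : ℝ) + 1) * C' + K)) := by ring
  have h7 : (Dα * η * V * b ^ p * m) * ((2 : ℝ) ^ (p + 1) * (((p : ℝ) + 1) * C' + K)) ≤
      (Dα * η * V * b ^ p * m) * (((p : ℝ) + 1) * C' * K) :=
    mul_le_mul_of_nonneg_left h5 (by positivity)
  have h8 : (Dα * η * V * b ^ p * m) * (((p : ℝ) + 1) * C' * K) =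
      ((p : ℝ) + 1) * b ^ p * (C' * D * m * η) * V := by
    rw [← hKD]; ring
  have h9 : 0 ≤ b ^ (p + 1) * (l * (k * m * V1)) := by positivity
  nlinarith

theorem marks (h1 : S_POS) (h2 : S_YF) (h3 : S_VEX) : S_MARKS := by
  intro α z k K C' a1 Y V u h0 h1' hz0 hz1 hk hkK hK hC' ha1 hY hV hu hA1 hVV hA2
  obtain ⟨yW, yU, y3, y4, y5, y6, y7⟩ := h2 α z Y h0 h1' hz0 hz1 hY
  obtain ⟨_, hVEX, _⟩ := h3 α z k Y h0 h1' hz0 hz1 hk hY
  have hK0 : 0 < K := by linarith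
  have hD1 : 1 ≤ DK α K := DK_ge h1' (by linarith)
  have hKD := DK_eq h1' hK0
  set D := DK α K with hDdef
  have hD0 : 0 < D := by linarith
  have hg0 : ∀ r, 0 ≤ g4 r := by
    intro r; unfold g4; split_ifs <;> norm_num
  have hg1 : ∀ r, g4 r ≤ 1 := by
    intro r; unfold g4; split_ifs <;> norm_num
  have hη1 : ∀ d : ℕ, 1 ≤ 1 + (d : ℝ) / D := by
    intro d
    have : 0 ≤ (d : ℝ) / D := by positivity
    linarith
  -- region `[0, a1]`
  have hcY : ContinuousOn (Y 1) (Set.Ici 0) := fun t ht => (y5 t ht).continuousWithinAt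
  have hcV : ∀ d, ContinuousOn (V d) (Set.Ici 0) := fun d t ht => (hV.deriv d t ht).continuousWithinAt
  have hcu : ∀ d r, ContinuousOn (u d r) (Set.Ici 0) :=
    fun d r t ht => (hu.deriv d r t ht).continuousWithinAt
  obtain ⟨B1, C1, hB1, hC1, hBC1⟩ := hV.bdd a1 ha1
  obtain ⟨B2, C2, hB2, hC2, hBC2⟩ := hu.bdd a1 ha1
  have hmain : ∀ d r, ∀ t ∈ Set.Icc 0 a1,
      0 ≤ (C' * D * (1 - Y 1 t) * (1 + ((d + 1 : ℕ) : ℝ) / D)) ^ (4 - r) * V (d + 1) t -
        u (d + 1) r t := by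
    refine h1 α 0 a1 (1 + K) ((B1 + B2) * (16 * C1 * C2)) (16 * C1 * C2) h0 h1' ha1
      (by linarith) (by positivity) (by nlinarith)
      (fun d r t => (C' * D * (1 - Y 1 t) * (1 + ((d + 1 : ℕ) : ℝ) / D)) ^ (4 - r) * V (d + 1) t -
        u (d + 1) r t)
      (fun d r t => ((((4 - r : ℕ) : ℝ) *
          (C' * D * (1 - Y 1 t) * (1 + ((d + 1 : ℕ) : ℝ) / D)) ^ (4 - r - 1) *
          ((C' * D) * (0 - (-(m1 Y t))) * (1 + ((d + 1 : ℕ) : ℝ) / D))) * V (d + 1) t +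
        (C' * D * (1 - Y 1 t) * (1 + ((d + 1 : ℕ) : ℝ) / D)) ^ (4 - r) *
          (lam α (d + 1) * (cc Y k t * V (d + 1 + 1) t - V (d + 1) t))) -
        lam α (d + 1) * (Y 1 t * u (d + 1 + 1) r t + (fun t => k * m1 Y t) t * u (d + 1 + 1) (r + 1) t
          - u (d + 1) r t))
      (fun d r t => lam α (d + 1) * Y 1 t) (fun d r t => lam α (d + 1) * (k * m1 Y t))
      (fun d _ _ => lam α (d + 1))
      (fun d r => ?_) (fun d r s hs => ?_) ?_ ?_ ?_ ?_
    · refine ContinuousOn.mono ?_ Set.Icc_subset_Ici_self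
      exact ((((continuousOn_const.sub hcY).const_mul _).mul_const _).pow _).mul (hcV _) |>.sub
        (hcu _ _)
    · refine deriv_right hs.1 ?_
      have d1 : HasDerivWithinAt (fun t => C' * D * (1 - Y 1 t) * (1 + ((d + 1 : ℕ) : ℝ) / D))
          ((C' * D) * (0 - (-(m1 Y s))) * (1 + ((d + 1 : ℕ) : ℝ) / D)) (Set.Ici 0) s :=
        (((hasDerivWithinAt_const s (Set.Ici 0) (1 : ℝ)).fun_sub (y5 s hs.1)).const_mul
          (C' * D)).mul_const _
      exact ((d1.fun_pow (4 - r)).fun_mul (hV.deriv (d + 1) s hs.1)).fun_sub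
        (hu.deriv (d + 1) r s hs.1)
    · intro d r s hs
      have hs0 := hs.1
      have hy0 := hY.pos 1 s hs0
      have hy1 : Y 1 s ≤ 1 := (hY.le 1 s hs0).trans hz1.le
      have hv0 := hV.pos (d + 1) s hs0
      have hv1 := hV.pos (d + 1 + 1) s hs0
      have hvv := hVV (d + 1) s (by omega) hs0 hs.2.le
      by_cases hr : 4 ≤ r
      · have e1 : 4 - r = 0 := by omega
        have e2 : 4 - (r + 1) = 0 := by omega
        simp only [e1, e2]
        unfold cc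
        simp only [pow_zero, Nat.cast_zero, zero_mul, one_mul]
        nlinarith
      · obtain ⟨p, hp⟩ : ∃ p, 4 - r = p + 1 := ⟨3 - r, by omega⟩
        have hp3 : p ≤ 3 := by omega
        have e2 : 4 - (r + 1) = p := by omega
        have e3 : (((d + 1 + 1 : ℕ) : ℝ)) / D = ((d + 1 : ℕ) : ℝ) / D + 1 / D := by
          push_cast; ring
        have hk' := key (K := K) (k := k) (C' := C') (D := D) (Dα := D ^ α)
          (A := C' * D * (1 - Y 1 s)) (y := Y 1 s) (m := m1 Y s)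
          (η := 1 + ((d + 1 : ℕ) : ℝ) / D) (l := lam α (d + 1)) (V := V (d + 1) s)
          (V1 := V (d + 1 + 1) s) p hp3 hK hC' hk hkK hD1 (Real.rpow_nonneg hD0.le α) hKD rfl
          hy0.le hy1 (y4 s hs0).1 (hη1 _) (lam_nonneg α _) (lam_le h0 h1' hD0 _) hv0.le hv1.le hvv
        simp only [hp, e2, e3, Nat.add_sub_cancel]
        rw [← add_assoc 1 (((d + 1 : ℕ) : ℝ) / D) (1 / D)]
        have e4 : (((p + 1 : ℕ) : ℝ)) = (p : ℝ) + 1 := by push_cast; ring
        rw [e4]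
        unfold cc
        have e5 : (0 : ℝ) - -(m1 Y s) = m1 Y s := by ring
        rw [e5]
        generalize C' * D * (1 - Y 1 s) = A at hk' ⊢
        generalize (1 + ((d + 1 : ℕ) : ℝ) / D) = η at hk' ⊢
        nlinarith
    · intro d r s hs
      have hs0 := hs.1
      have hy0 := hY.pos 1 s hs0
      have hy1 : Y 1 s ≤ 1 := (hY.le 1 s hs0).trans hz1.le
      have hl := lam_nonneg α (d + 1)
      have hm0 : 0 ≤ m1 Y s := le_trans (mul_nonneg hy0.le (by linarith)) (y4 s hs0).1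
      have hm1 : m1 Y s ≤ 1 := (y4 s hs0).2.trans hy1
      have hkm : k * m1 Y s ≤ 1 + K := by nlinarith
      refine ⟨by positivity, ?_, by positivity, ?_, by linarith⟩
      · rw [mul_comm]; exact mul_le_mul_of_nonneg_right (by linarith) hl
      · rw [mul_comm]; exact mul_le_mul_of_nonneg_right hkm hl
    · intro d r
      rw [hV.init, hu.init, hY.init]
      have hA0 : 0 ≤ C' * D * (1 - z) * (1 + ((d + 1 : ℕ) : ℝ) / D) := by
        have : 0 ≤ 1 - z := by linarith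
        positivity
      unfold g4
      split_ifs with hr
      · have e1 : 4 - r = 0 := by omega
        rw [e1]; norm_num
      · have := pow_nonneg hA0 (4 - r)
        linarith
    · intro d r s hs
      have hs0 := hs.1
      have hy0 := hY.pos 1 s hs0
      have hy1 : Y 1 s ≤ 1 := (hY.le 1 s hs0).trans hz1.le
      have hv0 := hV.pos (d + 1) s hs0
      have hu0 := hu.nonneg (d + 1) r s hs0
      have hv1 := hBC1 (d + 1) s hs0 hs.2
      have hu1 := hBC2 (d + 1) r s hs0 hs.2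
      have hA := hA1 s hs0 hs.2
      have hA0 : 0 ≤ C' * D * (1 - Y 1 s) := by
        have : 0 ≤ 1 - Y 1 s := by linarith
        positivity
      have hη : 1 + ((d + 1 : ℕ) : ℝ) / D ≤ 2 ^ (d + 1) := by
        have a1 : ((d + 1 : ℕ) : ℝ) / D ≤ ((d + 1 : ℕ) : ℝ) := by
          rw [div_le_iff₀ hD0]
          have : (0 : ℝ) ≤ ((d + 1 : ℕ) : ℝ) := Nat.cast_nonneg _
          nlinarith
        have a2 : 1 + (d + 1) ≤ 2 ^ (d + 1) := by
          have := Nat.lt_two_pow_self (n := d + 1)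
          omega
        have a3 : (1 : ℝ) + ((d + 1 : ℕ) : ℝ) ≤ 2 ^ (d + 1) := by exact_mod_cast a2
        linarith
      have hb0 : 0 ≤ C' * D * (1 - Y 1 s) * (1 + ((d + 1 : ℕ) : ℝ) / D) := by positivity
      have hpw : (C' * D * (1 - Y 1 s) * (1 + ((d + 1 : ℕ) : ℝ) / D)) ^ (4 - r) ≤ 16 ^ (d + 1) := by
        have b1 : C' * D * (1 - Y 1 s) * (1 + ((d + 1 : ℕ) : ℝ) / D) ≤ 2 ^ (d + 1) := by
          have b2 := hη1 (d + 1)
          calc _ ≤ 1 * (1 + ((d + 1 : ℕ) : ℝ) / D) := mul_le_mul_of_nonneg_right hA (by linarith)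
            _ ≤ _ := by rw [one_mul]; exact hη
        calc _ ≤ ((2 : ℝ) ^ (d + 1)) ^ (4 - r) := pow_le_pow_left₀ hb0 b1 _
          _ ≤ ((2 : ℝ) ^ (d + 1)) ^ 4 :=
            pow_le_pow_right₀ (one_le_pow₀ (by norm_num)) (by omega)
          _ = 16 ^ (d + 1) := by
            rw [← pow_mul, mul_comm, pow_mul]; norm_num
      have hpw0 := pow_nonneg hb0 (4 - r)
      have t1 : (C' * D * (1 - Y 1 s) * (1 + ((d + 1 : ℕ) : ℝ) / D)) ^ (4 - r) * V (d + 1) s ≤
          16 ^ (d + 1) * (B1 * C1 ^ (d + 1)) :=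
        mul_le_mul hpw hv1 hv0.le (by positivity)
      have t2 : (16 : ℝ) ^ (d + 1) * (B1 * C1 ^ (d + 1)) ≤ B1 * (16 * C1 * C2) ^ (d + 1) := by
        have : (16 * C1) ^ (d + 1) ≤ (16 * C1 * C2) ^ (d + 1) :=
          pow_le_pow_left₀ (by positivity) (by nlinarith) _
        calc (16 : ℝ) ^ (d + 1) * (B1 * C1 ^ (d + 1)) = B1 * (16 * C1) ^ (d + 1) := by
              rw [mul_pow]; ring
          _ ≤ _ := mul_le_mul_of_nonneg_left this hB1
      have t3 : B2 * C2 ^ (d + 1) ≤ B2 * (16 * C1 * C2) ^ (d + 1) := by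
        have : C2 ^ (d + 1) ≤ (16 * C1 * C2) ^ (d + 1) :=
          pow_le_pow_left₀ (by positivity) (by nlinarith) _
        exact mul_le_mul_of_nonneg_left this hB2
      have t4 : (16 * C1 * C2) ^ (d + 1) ≤ (16 * C1 * C2) * (16 * C1 * C2) ^ (d + r) := by
        rw [← pow_succ']
        exact pow_le_pow_right₀ (by nlinarith) (by omega)
      have t5 : (B1 + B2) * (16 * C1 * C2) ^ (d + 1) ≤
          (B1 + B2) * ((16 * C1 * C2) * (16 * C1 * C2) ^ (d + r)) :=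
        mul_le_mul_of_nonneg_left t4 (by positivity)
      have t6 : 0 ≤ (C' * D * (1 - Y 1 s) * (1 + ((d + 1 : ℕ) : ℝ) / D)) ^ (4 - r) * V (d + 1) s :=
        mul_nonneg hpw0 hv0.le
      have t7 : (B1 + B2) * ((16 * C1 * C2) * (16 * C1 * C2) ^ (d + r)) =
          (B1 + B2) * (16 * C1 * C2) * (16 * C1 * C2) ^ (d + r) := by ring
      have t8 : (B1 + B2) * (16 * C1 * C2) ^ (d + 1) =
          B1 * (16 * C1 * C2) ^ (d + 1) + B2 * (16 * C1 * C2) ^ (d + 1) := by ring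
      have t9 := t1.trans t2
      have t10 := hu1.trans t3
      rw [t7, t8] at t5
      have t11 : 0 ≤ B1 * (16 * C1 * C2) ^ (d + 1) := t6.trans t9
      have t12 : 0 ≤ B2 * (16 * C1 * C2) ^ (d + 1) := hu0.trans t10
      rw [abs_le]
      constructor
      · linarith only [t5, t6, t9, t10, t11, t12]
      · linarith only [t5, t6, t9, t10, t11, t12, hu0]
  intro d r t hd ht
  rcases le_total t a1 with hta | hta
  · obtain ⟨e, rfl⟩ := Nat.exists_eq_add_of_le' hd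
    have := hmain e r t ⟨ht, hta⟩
    rw [min_eq_left (hA1 t ht hta), ← mul_pow, mul_comm (1 + _ / _)]
    linarith
  · rw [min_eq_right (hA2 t hta), one_pow, mul_one]
    have a1' := hVEX V g4 u hV hg0 hg1 hu d r t ht
    have a2 : 1 ≤ (1 + (d : ℝ) / D) ^ (4 - r) := one_le_pow₀ (hη1 d)
    have a3 := hV.pos d t ht
    nlinarith

end Pool.Agent.TH945.J2245
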