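import Pool.Agent.TH981.SD.Stm

set_option autoImplicit false

open Pool.Agent.TH981.SD
open Finset Set Filter
open scoped BigOperators Topology Classical

namespace Pool.Agent.TH945.J2248

theorem lam_nonneg (α : ℝ) (d : ℕ) : 0 ≤ lam α d := Real.rpow_nonneg (Nat.cast_nonneg d) α

theorem lam_mono {α : ℝ} (h0 : 0 < α) {d e : ℕ} (h : d ≤ e) : lam α d ≤ lam α e :=
  Real.rpow_le_rpow (Nat.cast_nonneg d) (by exact_mod_cast h) h0.le

theorem deriv_right {f : ℝ → ℝ} {f' t : ℝ} (ht : 0 ≤ t) (hf : HasDerivWithinAt f f' (Set.Ici 0) t) :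
    HasDerivWithinAt f f' (Set.Ici t) t := hf.mono (Set.Ici_subset_Ici.2 ht)

theorem lam_le {α : ℝ} (h0 : 0 < α) (h1 : α < 1) {D : ℝ} (hD : 0 < D) (d : ℕ) :
    lam α d ≤ D ^ α * (1 + (d : ℝ) / D) := by
  unfold lam
  have e : (d : ℝ) ^ α = D ^ α * ((d : ℝ) / D) ^ α := by
    rw [← Real.mul_rpow hD.le (by positivity), mul_div_cancel₀ _ hD.ne']
  rw [e]
  have hx : 0 ≤ (d : ℝ) / D := by positivity
  have h2 : ((d : ℝ) / D) ^ α ≤ 1 + (d : ℝ) / D := by
    calc ((d : ℝ) / D) ^ α ≤ (1 + (d : ℝ) / D) ^ α :=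
          Real.rpow_le_rpow hx (by linarith) h0.le
      _ ≤ (1 + (d : ℝ) / D) ^ (1 : ℝ) :=
          Real.rpow_le_rpow_of_exponent_le (by linarith) h1.le
      _ = 1 + (d : ℝ) / D := Real.rpow_one _
  have h3 : 0 ≤ D ^ α := Real.rpow_nonneg hD.le α
  exact mul_le_mul_of_nonneg_left h2 h3

theorem DK_eq {α K : ℝ} (h1 : α < 1) (hK : 0 < K) : K * DK α K ^ α = DK α K := by
  unfold DK
  rw [← Real.rpow_mul hK.le]
  nth_rewrite 1 [← Real.rpow_one K]
  rw [← Real.rpow_add hK]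
  congr 1
  have : (1 - α) ≠ 0 := by linarith
  field_simp
  ring

theorem DK_ge {α K : ℝ} (h1 : α < 1) (hK : 1 ≤ K) : 1 ≤ DK α K := by
  unfold DK
  exact Real.one_le_rpow hK (by have : 0 < 1 - α := by linarith
                                positivity)

theorem pow_sub_le {a b : ℝ} (hb : 0 ≤ b) (hab : b ≤ a) (p : ℕ) :
    a ^ (p + 1) ≤ b ^ (p + 1) + ((p : ℝ) + 1) * a ^ p * (a - b) := by
  induction p with
  | zero => simp
  | succ p ih =>
    have ha : 0 ≤ a := hb.trans hab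
    have h1 : a ^ (p + 1 + 1) = a * a ^ (p + 1) := by ring
    have h2 : b ^ (p + 1) ≤ a ^ (p + 1) := pow_le_pow_left₀ hb hab _
    have h3 : a * a ^ (p + 1) ≤ a * (b ^ (p + 1) + ((p : ℝ) + 1) * a ^ p * (a - b)) :=
      mul_le_mul_of_nonneg_left ih ha
    have h4 : a * (b ^ (p + 1) + ((p : ℝ) + 1) * a ^ p * (a - b)) =
      b ^ (p + 1 + 1) + (a - b) * b ^ (p + 1) + ((p : ℝ) + 1) * a ^ (p + 1) * (a - b) := by ring
    have h5 : (a - b) * b ^ (p + 1) ≤ (a - b) * a ^ (p + 1) :=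
      mul_le_mul_of_nonneg_left h2 (by linarith)
    push_cast
    nlinarith

theorem num_ineq {K : ℝ} (hK : 32 ≤ K) (p : ℕ) (hp : p ≤ 2) :
    (2 : ℝ) ^ p * (((p : ℝ) + 1) * 8 + K) ≤ ((p : ℝ) + 1) * 8 * K := by
  interval_cases p <;> norm_num <;> linarith

theorem key {K D Dα A y m η l : ℝ} (p : ℕ) (hp : p ≤ 2) (hK : 32 ≤ K)
    (hD : 1 ≤ D) (hDα : 0 ≤ Dα) (hKD : K * Dα = D)
    (hA : A = 8 * D * (1 - y)) (hy0 : 0 ≤ y) (hy1 : y ≤ 1) (hm : y * (1 - y) ≤ m)
    (hη : 1 ≤ η) (hl0 : 0 ≤ l) (hl : l ≤ Dα * η) :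
    l * (y * (A * (η + 1 / D)) ^ (p + 1) + K * m * (A * (η + 1 / D)) ^ p - (A * η) ^ (p + 1)) ≤
    ((p : ℝ) + 1) * (A * η) ^ p * (8 * D * m * η) := by
  have hD0 : 0 < D := by linarith
  have hm0 : 0 ≤ m := le_trans (mul_nonneg hy0 (by linarith)) hm
  have hA0 : 0 ≤ A := by
    rw [hA]
    have : 0 ≤ 1 - y := by linarith
    positivity
  set a := A * (η + 1 / D) with ha
  set b := A * η with hb
  have hb0 : 0 ≤ b := by positivity
  have hab' : a - b = 8 * (1 - y) := by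
    rw [ha, hb, hA]; field_simp; ring
  have hab : b ≤ a := by
    have : 0 ≤ 8 * (1 - y) := mul_nonneg (by linarith) (by linarith)
    linarith
  have ha0 : 0 ≤ a := hb0.trans hab
  have ha2 : a ≤ 2 * b := by
    have h1 : 1 / D ≤ η := by
      have : 1 / D ≤ 1 := by rw [div_le_one hD0]; exact hD
      linarith
    have h2 : A * (1 / D) ≤ A * η := mul_le_mul_of_nonneg_left h1 hA0
    rw [ha, hb]; linarith
  have hap : a ^ p ≤ 2 ^ p * b ^ p := by
    rw [← mul_pow]; exact pow_le_pow_left₀ ha0 ha2 _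
  have h1 := pow_sub_le hb0 hab p
  rw [hab'] at h1
  have hap0 : 0 ≤ a ^ p := pow_nonneg ha0 p
  have hbp0 : 0 ≤ b ^ p := pow_nonneg hb0 p
  have h2 : y * (a ^ (p + 1) - b ^ (p + 1)) + K * m * a ^ p ≤
      2 ^ p * b ^ p * (m * (((p : ℝ) + 1) * 8 + K)) := by
    have e1 : y * (a ^ (p + 1) - b ^ (p + 1)) ≤ y * (((p : ℝ) + 1) * a ^ p * (8 * (1 - y))) :=
      mul_le_mul_of_nonneg_left (by linarith) hy0
    have e2 : y * (((p : ℝ) + 1) * a ^ p * (8 * (1 - y))) =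
        (((p : ℝ) + 1) * a ^ p * 8) * (y * (1 - y)) := by ring
    have e3 : (((p : ℝ) + 1) * a ^ p * 8) * (y * (1 - y)) ≤ (((p : ℝ) + 1) * a ^ p * 8) * m :=
      mul_le_mul_of_nonneg_left hm (by positivity)
    have e5 : (((p : ℝ) + 1) * a ^ p * 8) * m + K * m * a ^ p =
        a ^ p * (m * (((p : ℝ) + 1) * 8 + K)) := by ring
    have e6 : a ^ p * (m * (((p : ℝ) + 1) * 8 + K)) ≤
        2 ^ p * b ^ p * (m * (((p : ℝ) + 1) * 8 + K)) :=
      mul_le_mul_of_nonneg_right hap (by positivity)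
    linarith
  have h4 : l * (y * (a ^ (p + 1) - b ^ (p + 1)) + K * m * a ^ p) ≤
      (Dα * η) * (2 ^ p * b ^ p * (m * (((p : ℝ) + 1) * 8 + K))) := by
    calc l * (y * (a ^ (p + 1) - b ^ (p + 1)) + K * m * a ^ p) ≤
          l * (2 ^ p * b ^ p * (m * (((p : ℝ) + 1) * 8 + K))) :=
          mul_le_mul_of_nonneg_left h2 hl0
      _ ≤ _ := mul_le_mul_of_nonneg_right hl (by positivity)
  have h5 := num_ineq hK p hp
  have h6 : (Dα * η) * (2 ^ p * b ^ p * (m * (((p : ℝ) + 1) * 8 + K))) =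
      (Dα * η * b ^ p * m) * ((2 : ℝ) ^ p * (((p : ℝ) + 1) * 8 + K)) := by ring
  have h7 : (Dα * η * b ^ p * m) * ((2 : ℝ) ^ p * (((p : ℝ) + 1) * 8 + K)) ≤
      (Dα * η * b ^ p * m) * (((p : ℝ) + 1) * 8 * K) :=
    mul_le_mul_of_nonneg_left h5 (by positivity)
  have h8 : (Dα * η * b ^ p * m) * (((p : ℝ) + 1) * 8 * K) =
      ((p : ℝ) + 1) * b ^ p * (8 * D * m * η) := by
    rw [← hKD]; ring
  have h9 : 0 ≤ l * ((1 - y) * b ^ (p + 1)) := by
    have : 0 ≤ 1 - y := by linarith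
    positivity
  have h10 : l * (y * a ^ (p + 1) + K * m * a ^ p - b ^ (p + 1)) =
      l * (y * (a ^ (p + 1) - b ^ (p + 1)) + K * m * a ^ p) - l * ((1 - y) * b ^ (p + 1)) := by ring
  linarith

theorem low (h1 : S_POS) (h2 : S_YF) : S_LOW := by
  intro α z K Y u h0 h1' hz0 hz1 hK hY hu
  obtain ⟨yW, yU, y3, y4, y5, y6, y7⟩ := h2 α z Y h0 h1' hz0 hz1 hY
  have hK0 : 0 < K := by linarith
  have hD1 : 1 ≤ DK α K := DK_ge h1' (by linarith)
  have hKD := DK_eq h1' hK0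
  set D := DK α K with hDdef
  have hD0 : 0 < D := by linarith
  have hη1 : ∀ d : ℕ, 1 ≤ 1 + (d : ℝ) / D := by
    intro d
    have : 0 ≤ (d : ℝ) / D := by positivity
    linarith
  have hcY : ContinuousOn (Y 1) (Set.Ici 0) := fun t ht => (y5 t ht).continuousWithinAt
  have hcu : ∀ d r, ContinuousOn (u d r) (Set.Ici 0) :=
    fun d r t ht => (hu.deriv d r t ht).continuousWithinAt
  -- bound on X
  have hX : ∀ (d r : ℕ) (s : ℝ), 0 ≤ s →
      0 ≤ ∑ i ∈ Finset.range (4 - r), (8 * D * (1 - Y 1 s) * (1 + (d : ℝ) / D)) ^ i ∧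
      ∑ i ∈ Finset.range (4 - r), (8 * D * (1 - Y 1 s) * (1 + (d : ℝ) / D)) ^ i ≤
        4 * ((1 + 8 * D) * (1 + (d : ℝ) / D)) ^ 3 := by
    intro d r s hs
    have hy0 := hY.pos 1 s hs
    have hy1 : Y 1 s ≤ 1 := (hY.le 1 s hs).trans hz1.le
    have hη := hη1 d
    have hb0 : 0 ≤ 8 * D * (1 - Y 1 s) * (1 + (d : ℝ) / D) := by
      have : 0 ≤ 1 - Y 1 s := by linarith
      positivity
    have hbg : 8 * D * (1 - Y 1 s) * (1 + (d : ℝ) / D) ≤ (1 + 8 * D) * (1 + (d : ℝ) / D) := by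
      refine mul_le_mul_of_nonneg_right ?_ (by linarith)
      nlinarith
    have hg : 1 ≤ (1 + 8 * D) * (1 + (d : ℝ) / D) := by nlinarith
    refine ⟨Finset.sum_nonneg fun i _ => pow_nonneg hb0 i, ?_⟩
    calc ∑ i ∈ Finset.range (4 - r), (8 * D * (1 - Y 1 s) * (1 + (d : ℝ) / D)) ^ i ≤
        ∑ _i ∈ Finset.range (4 - r), ((1 + 8 * D) * (1 + (d : ℝ) / D)) ^ 3 := by
          refine Finset.sum_le_sum fun i hi => ?_
          have hi' := Finset.mem_range.1 hi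
          exact (pow_le_pow_left₀ hb0 hbg i).trans (pow_le_pow_right₀ hg (by omega))
      _ = ((4 - r : ℕ) : ℝ) * ((1 + 8 * D) * (1 + (d : ℝ) / D)) ^ 3 := by
          rw [Finset.sum_const, Finset.card_range, nsmul_eq_mul]
      _ ≤ 4 * ((1 + 8 * D) * (1 + (d : ℝ) / D)) ^ 3 := by
          refine mul_le_mul_of_nonneg_right ?_ (by positivity)
          have : 4 - r ≤ 4 := Nat.sub_le 4 r
          exact_mod_cast this
  have hmain : ∀ T, 0 ≤ T → ∀ d r, ∀ t ∈ Set.Icc 0 T,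
      0 ≤ ∑ i ∈ Finset.range (4 - r), (8 * D * (1 - Y 1 t) * (1 + ((d + 1 : ℕ) : ℝ) / D)) ^ i -
        u (d + 1) r t := by
    intro T hT
    obtain ⟨B2, C2, hB2, hC2, hBC2⟩ := hu.bdd T hT
    refine h1 α 0 T (1 + K) ((4 * (1 + 8 * D) ^ 3 + B2) * (8 * C2)) (8 * C2) h0 h1' hT
      (by linarith) (by positivity) (by linarith)
      (fun d r t => ∑ i ∈ Finset.range (4 - r),
        (8 * D * (1 - Y 1 t) * (1 + ((d + 1 : ℕ) : ℝ) / D)) ^ i - u (d + 1) r t)
      (fun d r t => ∑ i ∈ Finset.range (4 - r), (((i : ℕ) : ℝ) *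
          (8 * D * (1 - Y 1 t) * (1 + ((d + 1 : ℕ) : ℝ) / D)) ^ (i - 1) *
          ((8 * D) * (0 - (-(m1 Y t))) * (1 + ((d + 1 : ℕ) : ℝ) / D))) -
        lam α (d + 1) * (Y 1 t * u (d + 1 + 1) r t + (fun t => K * m1 Y t) t * u (d + 1 + 1) (r + 1) t
          - u (d + 1) r t))
      (fun d r t => lam α (d + 1) * Y 1 t) (fun d r t => lam α (d + 1) * (K * m1 Y t))
      (fun d _ _ => lam α (d + 1))
      (fun d r => ?_) (fun d r s hs => ?_) ?_ ?_ ?_ ?_
    · refine ContinuousOn.mono ?_ Set.Icc_subset_Ici_self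
      refine ContinuousOn.sub ?_ (hcu _ _)
      exact continuousOn_finsetSum _ fun i _ =>
        (((continuousOn_const.sub hcY).const_mul _).mul_const _).pow _
    · refine deriv_right hs.1 ?_
      have d1 : HasDerivWithinAt (fun t => 8 * D * (1 - Y 1 t) * (1 + ((d + 1 : ℕ) : ℝ) / D))
          ((8 * D) * (0 - (-(m1 Y s))) * (1 + ((d + 1 : ℕ) : ℝ) / D)) (Set.Ici 0) s :=
        (((hasDerivWithinAt_const s (Set.Ici 0) (1 : ℝ)).fun_sub (y5 s hs.1)).const_mul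
          (8 * D)).mul_const _
      exact (HasDerivWithinAt.fun_sum fun i _ => d1.fun_pow i).fun_sub
        (hu.deriv (d + 1) r s hs.1)
    · intro d r s hs
      have hs0 := hs.1
      have hy0 := hY.pos 1 s hs0
      have hy1 : Y 1 s ≤ 1 := (hY.le 1 s hs0).trans hz1.le
      have e3 : (((d + 1 + 1 : ℕ) : ℝ)) / D = ((d + 1 : ℕ) : ℝ) / D + 1 / D := by
        push_cast; ring
      have hk' := fun (p : ℕ) (hp : p ≤ 2) => key (K := K) (D := D) (Dα := D ^ α)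
        (A := 8 * D * (1 - Y 1 s)) (y := Y 1 s) (m := m1 Y s)
        (η := 1 + ((d + 1 : ℕ) : ℝ) / D) (l := lam α (d + 1)) p hp hK hD1
        (Real.rpow_nonneg hD0.le α) hKD rfl
        hy0.le hy1 (y4 s hs0).1 (hη1 _) (lam_nonneg α _) (lam_le h0 h1' hD0 _)
      have k0 := hk' 0 (by norm_num)
      have k1 := hk' 1 (by norm_num)
      have k2 := hk' 2 (by norm_num)
      have hl := lam_nonneg α (d + 1)
      have kk : lam α (d + 1) * (Y 1 s - 1) ≤ 0 :=
        mul_nonpos_of_nonneg_of_nonpos hl (by linarith)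
      have e5 : (0 : ℝ) - -(m1 Y s) = m1 Y s := by ring
      simp only [e3, e5]
      rw [← add_assoc 1 (((d + 1 : ℕ) : ℝ) / D) (1 / D)]
      generalize 8 * D * (1 - Y 1 s) = A at k0 k1 k2 ⊢
      generalize (1 + ((d + 1 : ℕ) : ℝ) / D) = η at k0 k1 k2 ⊢
      by_cases hr : 4 ≤ r
      · have e1 : 4 - r = 0 := by omega
        have e2 : 4 - (r + 1) = 0 := by omega
        simp only [e1, e2, Finset.range_zero, Finset.sum_empty]
        linarith
      · have hr' : r < 4 := by omega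
        interval_cases r
        · norm_num [Finset.sum_range_succ] at k0 k1 k2 ⊢
          linarith
        · norm_num [Finset.sum_range_succ] at k0 k1 k2 ⊢
          linarith
        · norm_num [Finset.sum_range_succ] at k0 k1 k2 ⊢
          linarith
        · norm_num [Finset.sum_range_succ] at k0 k1 k2 ⊢
          linarith
    · intro d r s hs
      have hs0 := hs.1
      have hy0 := hY.pos 1 s hs0
      have hy1 : Y 1 s ≤ 1 := (hY.le 1 s hs0).trans hz1.le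
      have hl := lam_nonneg α (d + 1)
      have hm0 : 0 ≤ m1 Y s := le_trans (mul_nonneg hy0.le (by linarith)) (y4 s hs0).1
      have hm1 : m1 Y s ≤ 1 := (y4 s hs0).2.trans hy1
      have hkm : K * m1 Y s ≤ 1 + K := by nlinarith
      refine ⟨by positivity, ?_, by positivity, ?_, by linarith⟩
      · rw [mul_comm]; exact mul_le_mul_of_nonneg_right (by linarith) hl
      · rw [mul_comm]; exact mul_le_mul_of_nonneg_right hkm hl
    · intro d r
      rw [hu.init, hY.init]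
      have hA0 : 0 ≤ 8 * D * (1 - z) * (1 + ((d + 1 : ℕ) : ℝ) / D) := by
        have : 0 ≤ 1 - z := by linarith
        positivity
      unfold glow
      split_ifs with hr
      · have : (8 * D * (1 - z) * (1 + ((d + 1 : ℕ) : ℝ) / D)) ^ 0 ≤
            ∑ i ∈ Finset.range (4 - r), (8 * D * (1 - z) * (1 + ((d + 1 : ℕ) : ℝ) / D)) ^ i :=
          Finset.single_le_sum (f := fun i => (8 * D * (1 - z) * (1 + ((d + 1 : ℕ) : ℝ) / D)) ^ i)
            (fun i _ => pow_nonneg hA0 i) (Finset.mem_range.2 (by omega))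
        rw [pow_zero] at this
        linarith
      · have := Finset.sum_nonneg (s := Finset.range (4 - r))
          (f := fun i => (8 * D * (1 - z) * (1 + ((d + 1 : ℕ) : ℝ) / D)) ^ i)
          (fun i _ => pow_nonneg hA0 i)
        linarith
    · intro d r s hs
      have hs0 := hs.1
      have hu0 := hu.nonneg (d + 1) r s hs0
      have hu1 := hBC2 (d + 1) r s hs0 hs.2
      obtain ⟨hx0, hx1⟩ := hX (d + 1) r s hs0
      have hη : 1 + ((d + 1 : ℕ) : ℝ) / D ≤ 2 ^ (d + 1) := by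
        have a1 : ((d + 1 : ℕ) : ℝ) / D ≤ ((d + 1 : ℕ) : ℝ) := by
          rw [div_le_iff₀ hD0]
          have : (0 : ℝ) ≤ ((d + 1 : ℕ) : ℝ) := Nat.cast_nonneg _
          nlinarith
        have a2 : 1 + (d + 1) ≤ 2 ^ (d + 1) := by
          have := Nat.lt_two_pow_self (n := d + 1)
          omega
        have a3 : (1 : ℝ) + ((d + 1 : ℕ) : ℝ) ≤ 2 ^ (d + 1) := by exact_mod_cast a2
        linarith
      have t0 : 4 * ((1 + 8 * D) * (1 + ((d + 1 : ℕ) : ℝ) / D)) ^ 3 ≤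
          4 * (1 + 8 * D) ^ 3 * 8 ^ (d + 1) := by
        have hη' := hη1 (d + 1)
        have b1 : (1 + ((d + 1 : ℕ) : ℝ) / D) ^ 3 ≤ ((2 : ℝ) ^ (d + 1)) ^ 3 :=
          pow_le_pow_left₀ (by linarith) hη 3
        have b2 : ((2 : ℝ) ^ (d + 1)) ^ 3 = 8 ^ (d + 1) := by
          rw [← pow_mul, mul_comm, pow_mul]; norm_num
        rw [mul_pow, ← mul_assoc, ← b2]
        exact mul_le_mul_of_nonneg_left b1 (by positivity)
      have t1 : 4 * (1 + 8 * D) ^ 3 * 8 ^ (d + 1) ≤ 4 * (1 + 8 * D) ^ 3 * (8 * C2) ^ (d + 1) :=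
        mul_le_mul_of_nonneg_left (pow_le_pow_left₀ (by norm_num) (by linarith) _) (by positivity)
      have t3 : B2 * C2 ^ (d + 1) ≤ B2 * (8 * C2) ^ (d + 1) :=
        mul_le_mul_of_nonneg_left (pow_le_pow_left₀ (by positivity) (by linarith) _) hB2
      have t4 : (8 * C2) ^ (d + 1) ≤ (8 * C2) * (8 * C2) ^ (d + r) := by
        rw [← pow_succ']
        exact pow_le_pow_right₀ (by linarith) (by omega)
      have t5 : (4 * (1 + 8 * D) ^ 3 + B2) * (8 * C2) ^ (d + 1) ≤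
          (4 * (1 + 8 * D) ^ 3 + B2) * ((8 * C2) * (8 * C2) ^ (d + r)) :=
        mul_le_mul_of_nonneg_left t4 (by positivity)
      have t7 : (4 * (1 + 8 * D) ^ 3 + B2) * ((8 * C2) * (8 * C2) ^ (d + r)) =
          (4 * (1 + 8 * D) ^ 3 + B2) * (8 * C2) * (8 * C2) ^ (d + r) := by ring
      have t8 : (4 * (1 + 8 * D) ^ 3 + B2) * (8 * C2) ^ (d + 1) =
          4 * (1 + 8 * D) ^ 3 * (8 * C2) ^ (d + 1) + B2 * (8 * C2) ^ (d + 1) := by ring
      have t9 := hx1.trans (t0.trans t1)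
      have t10 := hu1.trans t3
      rw [t7, t8] at t5
      have t11 : 0 ≤ 4 * (1 + 8 * D) ^ 3 * (8 * C2) ^ (d + 1) := hx0.trans t9
      have t12 : 0 ≤ B2 * (8 * C2) ^ (d + 1) := hu0.trans t10
      rw [abs_le]
      constructor
      · linarith only [t5, hx0, t9, t10, t11, t12]
      · linarith only [t5, hx0, t9, t10, t11, t12, hu0]
  intro d r t hd ht
  obtain ⟨e, rfl⟩ := Nat.exists_eq_add_of_le' hd
  have := hmain t ht e r t ⟨ht, le_rfl⟩
  have h2 := (hX (e + 1) r t ht).2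
  linarith

end Pool.Agent.TH945.J2248
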